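import Mathlib

set_option autoImplicit false
set_option maxHeartbeats 400000

/-!
# An almost Hilbertian norm on `ℓ²`
-/

namespace Pool.Agent.H93.IF

open Filter Topology

/-- The Hilbert space of square summable real sequences. -/
abbrev H : Type := lp (fun _ : ℕ => ℝ) 2

/-- the first unit vector -/
noncomputable def u : H := lp.single 2 0 (1 : ℝ)

/-- the other unit vectors -/
noncomputable def ev (n : ℕ) : H := lp.single 2 (n + 1) (1 : ℝ)

theorem norm_u : ‖u‖ = 1 := by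
  rw [u, lp.norm_single (by norm_num)]; simp

theorem norm_ev (n : ℕ) : ‖ev n‖ = 1 := by
  rw [ev, lp.norm_single (by norm_num)]; simp

/-- the first coordinate -/
noncomputable def τ : H →L[ℝ] ℝ := innerSL ℝ u

/-- the projection -/
noncomputable def P : H →L[ℝ] H := ContinuousLinearMap.id ℝ H - τ.smulRight u

theorem τ_apply (x : H) : τ x = inner ℝ u x := rfl

theorem P_apply (x : H) : P x = x - τ x • u := rfl

theorem τ_u : τ u = 1 := by
  rw [τ_apply, real_inner_self_eq_norm_sq, norm_u]; norm_num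

theorem τ_ev (n : ℕ) : τ (ev n) = 0 := by
  rw [τ_apply, u, lp.inner_single_left, ev]
  simp

theorem τ_P (x : H) : τ (P x) = 0 := by
  rw [P_apply, map_sub, map_smul, τ_u]; simp

theorem decomp (x : H) : P x + τ x • u = x := by rw [P_apply]; abel

theorem norm_add_sq' (y : H) (t : ℝ) (hy : τ y = 0) : ‖y + t • u‖ ^ 2 = ‖y‖ ^ 2 + t ^ 2 := by
  have h : inner ℝ y u = 0 := by rw [real_inner_comm]; exact hy
  rw [norm_add_sq_real, inner_smul_right, h, norm_smul, norm_u, Real.norm_eq_abs, mul_one, sq_abs]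
  ring

theorem P_of (y : H) (t : ℝ) (hy : τ y = 0) : P (y + t • u) = y := by
  rw [P_apply, map_add, map_smul, hy, τ_u]; simp

theorem τ_of (y : H) (t : ℝ) (hy : τ y = 0) : τ (y + t • u) = t := by
  rw [map_add, map_smul, hy, τ_u]; simp

theorem norm_sq (x : H) : ‖x‖ ^ 2 = ‖P x‖ ^ 2 + (τ x) ^ 2 := by
  conv_lhs => rw [← decomp x]
  exact norm_add_sq' _ _ (τ_P x)

theorem P_le (x : H) : ‖P x‖ ≤ ‖x‖ := by
  apply le_of_sq_le_sq _ (norm_nonneg _)
  rw [norm_sq x]
  nlinarith [sq_nonneg (τ x)]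

/-- the vector (1 + 1/(n+1)) e_n -/
noncomputable def v (n : ℕ) : H := (1 + 1 / ((n : ℝ) + 1)) • ev n

theorem ev_apply_self (n : ℕ) : (ev n : ℕ → ℝ) (n + 1) = 1 := by simp [ev]

theorem ev_apply_ne (n m : ℕ) (h : m ≠ n) : (ev n : ℕ → ℝ) (m + 1) = 0 := by
  simp [ev, h]

theorem v_apply_self (n : ℕ) : (v n : ℕ → ℝ) (n + 1) = 1 + 1 / ((n : ℝ) + 1) := by
  rw [v, lp.coeFn_smul, Pi.smul_apply, ev_apply_self]; simp

theorem v_apply_ne (n m : ℕ) (h : m ≠ n) : (v n : ℕ → ℝ) (m + 1) = 0 := by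
  rw [v, lp.coeFn_smul, Pi.smul_apply, ev_apply_ne n m h]; simp

theorem norm_v' (n : ℕ) : ‖v n‖ = 1 + 1 / ((n : ℝ) + 1) := by
  have h1 : (0 : ℝ) < 1 / ((n : ℝ) + 1) := by positivity
  rw [v, norm_smul, norm_ev, mul_one, Real.norm_eq_abs, abs_of_pos (by positivity)]

theorem dist_v (n : ℕ) : dist (ev n) (v n) = 1 / ((n : ℝ) + 1) := by
  have h1 : (0 : ℝ) < 1 / ((n : ℝ) + 1) := by positivity
  rw [dist_comm, dist_eq_norm]
  have : v n - ev n = (1 / ((n : ℝ) + 1)) • ev n := by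
    rw [v, add_smul, one_smul]; abel
  rw [this, norm_smul, norm_ev, mul_one, Real.norm_eq_abs, abs_of_pos h1]

/-- the set of all v n -/
def S : Set H := Set.range v

theorem S_closed : IsClosed S := by
  apply Metric.isClosed_of_pairwise_le_dist (ε := 1) one_pos
  rintro _ ⟨n, rfl⟩ _ ⟨m, rfl⟩ hne
  have hnm : n ≠ m := fun h => hne (by rw [h])
  have h1 : (0 : ℝ) < 1 / ((n : ℝ) + 1) := by positivity
  have h2 : ‖(v n - v m : H) (n + 1)‖ ≤ ‖v n - v m‖ := lp.norm_apply_le_norm (by norm_num) _ (n + 1)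
  rw [dist_eq_norm]
  refine le_trans ?_ h2
  rw [lp.coeFn_sub, Pi.sub_apply, v_apply_self, v_apply_ne m n hnm, sub_zero, Real.norm_eq_abs]
  have := le_abs_self (1 + 1 / ((n : ℝ) + 1))
  linarith

theorem S_nonempty : S.Nonempty := ⟨v 0, 0, rfl⟩

/-- distance to S -/
noncomputable def h (x : H) : ℝ := Metric.infDist x S

theorem h_pos (x : H) (hx : ‖x‖ ≤ 1) : 0 < h x := by
  apply (S_closed.notMem_iff_infDist_pos S_nonempty).1
  rintro ⟨n, rfl⟩
  rw [norm_v'] at hx
  have h1 : (0 : ℝ) < 1 / ((n : ℝ) + 1) := by positivity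
  linarith

theorem h_ev (n : ℕ) : h (ev n) ≤ 1 / ((n : ℝ) + 1) := by
  rw [← dist_v]
  exact Metric.infDist_le_dist_of_mem ⟨n, rfl⟩

theorem h_nonneg (x : H) : 0 ≤ h x := Metric.infDist_nonneg

theorem h_le (x : H) (hx : ‖x‖ ≤ 1) : h x ≤ 3 := by
  have h1 : h x ≤ dist x (v 0) := Metric.infDist_le_dist_of_mem ⟨0, rfl⟩
  have h2 : dist x (v 0) ≤ ‖x‖ + ‖v 0‖ := by rw [dist_eq_norm]; exact norm_sub_le _ _
  rw [norm_v'] at h2
  norm_num at h2
  linarith

theorem h_lip (x y : H) : |h x - h y| ≤ ‖x - y‖ := by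
  have := (Metric.lipschitz_infDist_pt S).dist_le_mul x y
  rw [← Real.dist_eq, ← dist_eq_norm]
  simpa [h] using this

theorem reflH : Function.Surjective (NormedSpace.inclusionInDoubleDual ℝ H) := by
  intro φ
  obtain ⟨w, hw⟩ := (InnerProductSpace.toDual ℝ H).surjective
    (φ.comp (InnerProductSpace.toDual ℝ H).toContinuousLinearEquiv.toContinuousLinearMap)
  refine ⟨w, ?_⟩
  ext ψ
  obtain ⟨x, rfl⟩ := (InnerProductSpace.toDual ℝ H).surjective ψ
  have h1 := congrArg (fun g => g x) hw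
  simp only [InnerProductSpace.toDual_apply_apply, ContinuousLinearMap.comp_apply] at h1
  rw [NormedSpace.dual_def, InnerProductSpace.toDual_apply_apply, real_inner_comm]
  exact h1

theorem refl_of_equiv {E : Type} [NormedAddCommGroup E] [NormedSpace ℝ E] (e : E ≃L[ℝ] H) :
    Function.Surjective (NormedSpace.inclusionInDoubleDual ℝ E) := by
  intro φ
  obtain ⟨w, hw⟩ := reflH (φ.comp ((ContinuousLinearMap.compL ℝ E H ℝ).flip
    (e : E →L[ℝ] H)))
  refine ⟨e.symm w, ?_⟩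
  ext ψ
  rw [NormedSpace.dual_def]
  have h2 := congrArg (fun g => g (ψ.comp (e.symm : H →L[ℝ] E))) hw
  simp only [NormedSpace.dual_def, ContinuousLinearMap.comp_apply,
    ContinuousLinearMap.flip_apply, ContinuousLinearMap.compL_apply] at h2
  have h3 : (ψ.comp (e.symm : H →L[ℝ] E)).comp (e : E →L[ℝ] H) = ψ := by
    ext x; simp
  rw [h3] at h2
  exact h2

end Pool.Agent.H93.IF
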