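import Pool.Agent.H93.IF.Base

set_option autoImplicit false
set_option maxHeartbeats 400000

/-!
# The space, the convex set and the map
-/

namespace Pool.Agent.H93.IF

open Filter Topology

/-- the space: `ℓ²` with the norm `max (‖P x‖, ‖x‖ / (1 + |δ|))` -/
def X (_ : ℝ) : Type := H

variable (δ : ℝ)

noncomputable instance : AddCommGroup (X δ) := inferInstanceAs (AddCommGroup H)

noncomputable instance : Module ℝ (X δ) := inferInstanceAs (Module ℝ H)

/-- the identity -/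
noncomputable def E : X δ ≃ₗ[ℝ] H := LinearEquiv.refl ℝ H

/-- the constant -/
noncomputable def c : ℝ := (1 + |δ|)⁻¹

theorem c_pos : 0 < c δ := by unfold c; positivity

theorem c_le : c δ ≤ 1 := by
  unfold c
  rw [inv_le_one₀ (by positivity)]
  linarith [abs_nonneg δ]

/-- the embedding -/
noncomputable def J : X δ →ₗ[ℝ] H × H :=
  ((P : H →ₗ[ℝ] H).prod (c δ • LinearMap.id)).comp (E δ).toLinearMap

theorem J_apply (x : X δ) : J δ x = (P (E δ x), c δ • E δ x) := rfl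

theorem J_inj : Function.Injective (J δ) := by
  intro x y hxy
  rw [J_apply, J_apply, Prod.mk.injEq] at hxy
  exact (E δ).injective (smul_right_injective H (c_pos δ).ne' hxy.2)

noncomputable instance : NormedAddCommGroup (X δ) :=
  NormedAddCommGroup.induced (X δ) (H × H) (J δ) (J_inj δ)

noncomputable instance : NormedSpace ℝ (X δ) := NormedSpace.induced ℝ (X δ) (H × H) (J δ)

theorem norm_def (x : X δ) : ‖x‖ = max ‖P (E δ x)‖ (c δ * ‖E δ x‖) := by
  have h : ‖x‖ = ‖J δ x‖ := rfl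
  rw [h, J_apply, Prod.norm_def]
  congr 1
  rw [norm_smul, Real.norm_eq_abs, abs_of_pos (c_pos δ)]

theorem norm_le_E (x : X δ) : ‖x‖ ≤ ‖E δ x‖ := by
  rw [norm_def]
  apply max_le (P_le _)
  have := mul_le_mul_of_nonneg_right (c_le δ) (norm_nonneg (E δ x))
  linarith

theorem E_le (x : X δ) : ‖E δ x‖ ≤ (1 + |δ|) * ‖x‖ := by
  have h : c δ * ‖E δ x‖ ≤ ‖x‖ := by rw [norm_def]; exact le_max_right _ _
  rw [c, inv_mul_le_iff₀ (by positivity)] at h
  exact h

/-- the identity as a continuous linear equivalence -/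
noncomputable def e : X δ ≃L[ℝ] H :=
  LinearEquiv.toContinuousLinearEquivOfBounds (E δ) (1 + |δ|) 1 (E_le δ) (fun x => by
    have := norm_le_E δ ((E δ).symm x)
    rw [LinearEquiv.apply_symm_apply] at this
    rw [one_mul]; exact this)

theorem e_apply (x : X δ) : e δ x = E δ x := rfl

theorem contE : Continuous (E δ) := (e δ).continuous

instance : CompleteSpace (X δ) :=
  (completeSpace_congr (e := (e δ).toLinearEquiv.toEquiv) (e δ).isUniformEmbedding).2 inferInstance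

theorem refl : Function.Surjective (NormedSpace.inclusionInDoubleDual ℝ (X δ)) :=
  refl_of_equiv (e δ)

/-- uniform normal structure -/
theorem normal (hδ : |δ| ≤ 1 / 20) (K : Set (X δ)) (hKb : Bornology.IsBounded K)
    (hK : Convex ℝ K) (hab : ∃ a ∈ K, ∃ b ∈ K, a ≠ b) :
    ∃ x ∈ K, ∀ y ∈ K, dist x y ≤ 19 / 20 * Metric.diam K := by
  obtain ⟨a0, ha0, b0, hb0, hne⟩ := hab
  set d := Metric.diam K with hd
  have hdpos : 0 < d := lt_of_lt_of_le (dist_pos.2 hne) (Metric.dist_le_diam_of_mem hKb ha0 hb0)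
  obtain ⟨a, ha, b, hb, hab⟩ : ∃ a ∈ K, ∃ b ∈ K, 9 / 10 * d < dist a b := by
    by_contra hcon
    push Not at hcon
    have := Metric.diam_le_of_forall_dist_le (C := 9 / 10 * d) (by positivity) hcon
    rw [← hd] at this
    linarith
  have hm : (1 / 2 : ℝ) • a + (1 / 2 : ℝ) • b ∈ K :=
    hK ha hb (by norm_num) (by norm_num) (by norm_num)
  refine ⟨_, hm, fun y hy => ?_⟩
  have h1 : ‖E δ a - E δ y‖ ≤ 21 / 20 * d := by
    have h := E_le δ (a - y)
    rw [map_sub] at h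
    have h' := Metric.dist_le_diam_of_mem hKb ha hy
    rw [dist_eq_norm, ← hd] at h'
    have h0 := norm_nonneg (a - y)
    nlinarith
  have h2 : ‖E δ b - E δ y‖ ≤ 21 / 20 * d := by
    have h := E_le δ (b - y)
    rw [map_sub] at h
    have h' := Metric.dist_le_diam_of_mem hKb hb hy
    rw [dist_eq_norm, ← hd] at h'
    have h0 := norm_nonneg (b - y)
    nlinarith
  have h3 := parallelogram_law_with_norm ℝ (E δ a - E δ y) (E δ b - E δ y)
  have h4 : (E δ a - E δ y) - (E δ b - E δ y) = E δ a - E δ b := by abel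
  rw [h4] at h3
  have h5 : 9 / 10 * d ≤ ‖E δ a - E δ b‖ := by
    have h := norm_le_E δ (a - b)
    rw [map_sub] at h
    rw [dist_eq_norm] at hab
    linarith
  have h6 : E δ ((1 / 2 : ℝ) • a + (1 / 2 : ℝ) • b - y)
      = (1 / 2 : ℝ) • ((E δ a - E δ y) + (E δ b - E δ y)) := by
    rw [map_sub, map_add, map_smul, map_smul]
    module
  rw [dist_eq_norm]
  refine (norm_le_E δ _).trans ?_
  rw [h6, norm_smul, Real.norm_of_nonneg (by norm_num : (0 : ℝ) ≤ 1 / 2)]
  have h7 : ‖E δ a - E δ y‖ * ‖E δ a - E δ y‖ ≤ (21 / 20 * d) * (21 / 20 * d) :=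
    mul_self_le_mul_self (norm_nonneg _) h1
  have h8 : ‖E δ b - E δ y‖ * ‖E δ b - E δ y‖ ≤ (21 / 20 * d) * (21 / 20 * d) :=
    mul_self_le_mul_self (norm_nonneg _) h2
  have h9 : (9 / 10 * d) * (9 / 10 * d) ≤ ‖E δ a - E δ b‖ * ‖E δ a - E δ b‖ :=
    mul_self_le_mul_self (by positivity) h5
  have h10 : ‖(E δ a - E δ y) + (E δ b - E δ y)‖ ≤ 19 / 10 * d := by
    apply le_of_sq_le_sq _ (by positivity)
    have h11 : 0 < d * d := by positivity
    nlinarith
  linarith

/-- the convex set -/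
def C : Set (X δ) := {x | ‖P (E δ x)‖ ≤ 1 ∧ 0 ≤ τ (E δ x) ∧ τ (E δ x) ≤ 1}

theorem C_nonempty : (C δ).Nonempty := ⟨0, by
  refine ⟨?_, ?_, ?_⟩ <;> simp⟩

theorem C_closed : IsClosed (C δ) := by
  have h1 : IsClosed {x : X δ | ‖P (E δ x)‖ ≤ 1} :=
    isClosed_le ((P.continuous.comp (contE δ)).norm) continuous_const
  have h2 : IsClosed {x : X δ | 0 ≤ τ (E δ x)} :=
    isClosed_le continuous_const (τ.continuous.comp (contE δ))
  have h3 : IsClosed {x : X δ | τ (E δ x) ≤ 1} :=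
    isClosed_le (τ.continuous.comp (contE δ)) continuous_const
  exact h1.inter (h2.inter h3)

theorem C_convex : Convex ℝ (C δ) := by
  intro p hp q hq a b ha hb hab
  have e1 : E δ (a • p + b • q) = a • E δ p + b • E δ q := by
    rw [map_add, map_smul, map_smul]
  refine ⟨?_, ?_, ?_⟩
  · rw [e1, map_add, map_smul, map_smul]
    calc ‖a • P (E δ p) + b • P (E δ q)‖ ≤ ‖a • P (E δ p)‖ + ‖b • P (E δ q)‖ := norm_add_le _ _
      _ = a * ‖P (E δ p)‖ + b * ‖P (E δ q)‖ := by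
        rw [norm_smul, norm_smul, Real.norm_of_nonneg ha, Real.norm_of_nonneg hb]
      _ ≤ a * 1 + b * 1 := by
        have := hp.1; have := hq.1
        gcongr
      _ = 1 := by linarith
  · rw [e1, map_add, map_smul, map_smul, smul_eq_mul, smul_eq_mul]
    have := mul_nonneg ha hp.2.1
    have := mul_nonneg hb hq.2.1
    linarith
  · rw [e1, map_add, map_smul, map_smul, smul_eq_mul, smul_eq_mul]
    have := mul_le_mul_of_nonneg_left hp.2.2 ha
    have := mul_le_mul_of_nonneg_left hq.2.2 hb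
    linarith

theorem C_bdd : Bornology.IsBounded (C δ) := by
  rw [isBounded_iff_forall_norm_le]
  refine ⟨2, fun x hx => (norm_le_E δ x).trans ?_⟩
  apply le_of_sq_le_sq _ (by norm_num)
  rw [norm_sq]
  have h1 := hx.1
  have h2 := hx.2.1
  have h3 := hx.2.2
  have h4 := norm_nonneg (P (E δ x))
  nlinarith

theorem C_weak : IsCompact ((toWeakSpace ℝ (X δ)) '' (C δ)) := by
  have h1 : closure ((toWeakSpace ℝ (X δ)) '' (C δ)) = (toWeakSpace ℝ (X δ)) '' (C δ) := by
    rw [← (C_convex δ).toWeakSpace_closure ℝ, (C_closed δ).closure_eq]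
  rw [← h1]
  apply NormedSpace.isCompact_closure_of_isBounded
  · rw [Set.preimage_image_eq _ (toWeakSpace ℝ (X δ)).injective]
    exact C_bdd δ
  · intro φ _
    obtain ⟨w, hw⟩ := refl δ φ
    exact ⟨toWeakSpace ℝ (X δ) w, hw⟩

/-- the map -/
noncomputable def f (x : X δ) : X δ :=
  (E δ).symm (P (E δ x) + (1 / 2 + |δ| / 8 * h (P (E δ x))) • u)

theorem E_f (x : X δ) : E δ (f δ x) = P (E δ x) + (1 / 2 + |δ| / 8 * h (P (E δ x))) • u := by
  rw [f, LinearEquiv.apply_symm_apply]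

theorem f_nonexp (x y : X δ) : dist (f δ x) (f δ y) ≤ dist x y := by
  rw [dist_eq_norm, dist_eq_norm]
  have h1 : E δ (f δ x - f δ y) = (P (E δ x) - P (E δ y))
      + (|δ| / 8 * (h (P (E δ x)) - h (P (E δ y)))) • u := by
    rw [map_sub, E_f, E_f]
    module
  have h2 : τ (P (E δ x) - P (E δ y)) = 0 := by rw [map_sub, τ_P, τ_P, sub_zero]
  have h3 : ‖P (E δ x) - P (E δ y)‖ ≤ ‖x - y‖ := by
    rw [norm_def δ (x - y), map_sub, map_sub]
    exact le_max_left _ _
  refine le_trans ?_ h3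
  rw [norm_def, h1, P_of _ _ h2]
  apply max_le le_rfl
  rw [c, inv_mul_le_iff₀ (by positivity)]
  apply le_of_sq_le_sq _ (by positivity)
  rw [norm_add_sq' _ _ h2]
  have h4 := h_lip (P (E δ x)) (P (E δ y))
  have h5 : (h (P (E δ x)) - h (P (E δ y))) ^ 2 ≤ ‖P (E δ x) - P (E δ y)‖ ^ 2 := by
    rw [← sq_abs]
    exact pow_le_pow_left₀ (abs_nonneg _) h4 2
  have h6 : 0 ≤ |δ| := abs_nonneg δ
  have h7 : (|δ| / 8 * (h (P (E δ x)) - h (P (E δ y)))) ^ 2
      ≤ (|δ| / 8) ^ 2 * ‖P (E δ x) - P (E δ y)‖ ^ 2 := by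
    rw [mul_pow]
    exact mul_le_mul_of_nonneg_left h5 (by positivity)
  have h8 : ‖P (E δ x) - P (E δ y)‖ ^ 2 + (|δ| / 8) ^ 2 * ‖P (E δ x) - P (E δ y)‖ ^ 2
      ≤ ((1 + |δ|) * ‖P (E δ x) - P (E δ y)‖) ^ 2 := by
    have : 0 ≤ ‖P (E δ x) - P (E δ y)‖ ^ 2 := by positivity
    nlinarith [mul_nonneg h6 this, mul_nonneg (mul_nonneg h6 h6) this]
  linarith

theorem f_maps (hδ : |δ| ≤ 1 / 20) (x : X δ) (hx : x ∈ C δ) : f δ x ∈ C δ := by
  have h1 := h_nonneg (P (E δ x))
  have h2 := h_le (P (E δ x)) hx.1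
  have h3 := abs_nonneg δ
  refine ⟨?_, ?_, ?_⟩
  · rw [E_f, P_of _ _ (τ_P _)]; exact hx.1
  · rw [E_f, τ_of _ _ (τ_P _)]; positivity
  · rw [E_f, τ_of _ _ (τ_P _)]
    nlinarith

theorem range_not_closed (hδ : 0 < |δ|) : ¬ IsClosed {z : X δ | ∃ x ∈ C δ, z = x - f δ x} := by
  intro hcl
  let z : ℕ → X δ := fun n => (E δ).symm ((1 / 2 - |δ| / 8 * h (ev n)) • u)
  have hz : Tendsto z atTop (𝓝 ((E δ).symm ((1 / 2 : ℝ) • u))) := by
    have hc : Continuous fun t : ℝ => (E δ).symm (t • u) :=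
      (e δ).symm.continuous.comp (continuous_id.smul continuous_const)
    have h0 : Tendsto (fun n => h (ev n)) atTop (𝓝 0) :=
      squeeze_zero (fun n => h_nonneg _) h_ev tendsto_one_div_add_atTop_nhds_zero_nat
    have h1 : Tendsto (fun n => 1 / 2 - |δ| / 8 * h (ev n)) atTop (𝓝 (1 / 2)) := by
      have := (h0.const_mul (|δ| / 8)).const_sub (1 / 2)
      simpa using this
    exact (hc.tendsto (1 / 2)).comp h1
  have hP : ∀ n, P (ev n) = ev n := fun n => by
    have := P_of (ev n) 0 (τ_ev n)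
    simpa using this
  have hmem : (E δ).symm ((1 / 2 : ℝ) • u) ∈ {z : X δ | ∃ x ∈ C δ, z = x - f δ x} := by
    apply hcl.mem_of_tendsto hz
    refine Eventually.of_forall fun n => ?_
    have e1 : E δ ((E δ).symm (ev n + (1 : ℝ) • u)) = ev n + (1 : ℝ) • u :=
      LinearEquiv.apply_symm_apply _ _
    refine ⟨(E δ).symm (ev n + (1 : ℝ) • u), ⟨?_, ?_, ?_⟩, ?_⟩
    · rw [e1, P_of _ _ (τ_ev n), norm_ev]
    · rw [e1, τ_of _ _ (τ_ev n)]; exact zero_le_one
    · rw [e1, τ_of _ _ (τ_ev n)]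
    · apply (E δ).injective
      rw [map_sub, E_f, e1, P_of _ _ (τ_ev n)]
      show E δ ((E δ).symm _) = _
      rw [LinearEquiv.apply_symm_apply]
      module
  obtain ⟨x, hx, hx2⟩ := hmem
  have h1 : (1 / 2 : ℝ) • u = E δ x - E δ (f δ x) := by
    have := congrArg (E δ) hx2
    rwa [LinearEquiv.apply_symm_apply, map_sub] at this
  have h2 := congrArg τ h1
  rw [map_smul, τ_u, map_sub, E_f, τ_of _ _ (τ_P _), smul_eq_mul, mul_one] at h2
  have h3 := h_pos _ hx.1
  have h4 := hx.2.2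
  have h5 : 0 < |δ| / 8 * h (P (E δ x)) := by positivity
  linarith

end Pool.Agent.H93.IF
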